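import Pool.Agent.MP_e77664_al.TowerChar

/-! MP_e77664_al: in every characteristic (zero or a prime) there is an infinite division ring that
is generated as a ring by six elements. -/

namespace Pool.Agent.Results.MP_e77664_al.EveryCharacteristic

theorem result (p : ℕ) (hp : p = 0 ∨ p.Prime) :
    ∃ (D : Type) (_ : DivisionRing D), CharP D p ∧ Infinite D ∧
      ∃ s : Finset D, s.card ≤ 6 ∧ Subring.closure (s : Set D) = ⊤ :=
  Pool.Agent.FGDiv.exists_fg_charP p hp

end Pool.Agent.Results.MP_e77664_al.EveryCharacteristic
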